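import Pool.Agent.N728.QN.Def

/-!
Project QN (helper728), part FIN: from the mean value theorem to the final theorem, both signs of `a`
(adaptation of `Pool/Agent/N199/QL/FIN.lean` of helper199).
-/

set_option autoImplicit false

namespace Pool.Agent.N946.QN

open Finset Pool.Agent.N728.QL Pool.Agent.N728.QN

noncomputable section

/-! ### Real numbers -/

theorem fin_ineq {lam d D g K K0 e E T T1 S1 S2 P1 P2 R1 R2 J : ℝ} (hlam : 0 < lam)
    (hd0 : 0 ≤ d) (hd : d ≤ 2 / lam) (hD : D ≤ d + g) (hg : 0 ≤ g) (hK : 0 ≤ K) (hK0 : K ≤ K0)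
    (hT : 0 ≤ T) (hT1 : 0 ≤ T1) (hT1T : T1 ≤ T) (hJ : 0 < J) (hT1J : T1 ≤ T / J) (hE : 0 ≤ E)
    (hS2 : 0 ≤ S2) (hP1 : 0 ≤ P1) (hP1' : P1 ≤ S1 * (2 / lam)) (hR1 : 0 ≤ R1)
    (hR1' : R1 ≤ T1 * (2 / lam)) (hP2 : S2 * d ≤ P2) (hP2' : P2 ≤ S2 * D)
    (hR2 : (T - T1) * d ≤ R2) (hR2' : R2 ≤ (T - T1) * D) (h1 : |S1 - 2 * K * T1| ≤ E)
    (h2 : |S1 + S2 - 2 * K * T| ≤ E) (he : E ≤ e * T / 24) (he1 : e ≤ 1) (he0 : 0 < e)
    (hJK : 16 * K0 ≤ e * J) (hgl : 4 * (2 * K0 + 1) * (g * lam) ≤ e) :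
    |P1 + P2 - 2 * K * (R1 + R2)| ≤ e * T / lam := by
  obtain ⟨h1a, h1b⟩ := abs_le.1 h1
  obtain ⟨h2a, h2b⟩ := abs_le.1 h2
  have hi : 0 < 2 / lam := by positivity
  have hK00 : 0 ≤ K0 := hK.trans hK0
  -- the final bound
  have hKT1 : 2 * K * T1 ≤ 2 * K0 * (T / J) := by gcongr
  have hfin : (2 * K0 * (T / J) + 3 * E) * (2 / lam) + (2 * K0 * T + 2 * E) * g ≤ e * T / lam := by
    have e1 : 2 * K0 * (T / J) ≤ e * T / 8 := by
      rw [mul_div_assoc', div_le_iff₀ hJ]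
      nlinarith
    have e2 : (2 * K0 * (T / J) + 3 * E) * (2 / lam) ≤ (e * T / 4) * (2 / lam) := by
      gcongr
      linarith
    have e3 : (2 * K0 * T + 2 * E) * g ≤ (e * T / 4) / lam := by
      rw [le_div_iff₀ hlam]
      have e4 : 2 * K0 * T + 2 * E ≤ (2 * K0 + 1) * T := by nlinarith
      calc (2 * K0 * T + 2 * E) * g * lam ≤ (2 * K0 + 1) * T * g * lam := by gcongr
        _ = (4 * (2 * K0 + 1) * (g * lam)) * (T / 4) := by ring
        _ ≤ e * (T / 4) := by gcongr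
        _ = e * T / 4 := by ring
    have e5 : (e * T / 4) * (2 / lam) + (e * T / 4) / lam ≤ e * T / lam := by
      have : (e * T / 4) * (2 / lam) + (e * T / 4) / lam = (3 / 4) * (e * T / lam) := by ring
      rw [this]
      have : 0 ≤ e * T / lam := by positivity
      linarith
    linarith
  have hTT : 0 ≤ T - T1 := by linarith
  have hSD : S2 * D ≤ S2 * d + S2 * g := by
    calc S2 * D ≤ S2 * (d + g) := by gcongr
      _ = _ := by ring
  have hRD : (T - T1) * D ≤ (T - T1) * d + (T - T1) * g := by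
    calc (T - T1) * D ≤ (T - T1) * (d + g) := by gcongr
      _ = _ := by ring
  have hS2b : S2 ≤ 2 * K * (T - T1) + 2 * E := by linarith
  have hS2a : 2 * K * (T - T1) - 2 * E ≤ S2 := by linarith
  have h2Ed : 2 * E * d ≤ 2 * E * (2 / lam) := by gcongr
  rw [abs_le]
  constructor
  · -- lower bound
    have f1 : 2 * K * R1 ≤ 2 * K * T1 * (2 / lam) := by
      calc 2 * K * R1 ≤ 2 * K * (T1 * (2 / lam)) := by gcongr
        _ = _ := by ring
    have f2 : 2 * K * R2 ≤ 2 * K * ((T - T1) * d + (T - T1) * g) := by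
      gcongr
      exact hR2'.trans hRD
    have f3 : (2 * K * (T - T1) - 2 * E) * d ≤ S2 * d := by gcongr
    have f4 : 2 * K * ((T - T1) * g) ≤ (2 * K0 * T + 2 * E) * g := by
      calc 2 * K * ((T - T1) * g) ≤ 2 * K0 * (T * g) := by
            gcongr
            linarith
        _ ≤ (2 * K0 * T + 2 * E) * g := by nlinarith
    have f5 : 2 * K * T1 * (2 / lam) ≤ 2 * K0 * (T / J) * (2 / lam) := by gcongr
    have f6 : 0 ≤ E * (2 / lam) := by positivity
    nlinarith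
  · -- upper bound
    have f1 : S1 * (2 / lam) ≤ (2 * K0 * (T / J) + E) * (2 / lam) := by
      gcongr
      linarith
    have f2 : 2 * K * ((T - T1) * d) ≤ 2 * K * R2 := by gcongr
    have f3 : S2 * d ≤ (2 * K * (T - T1) + 2 * E) * d := by gcongr
    have f4 : S2 * g ≤ (2 * K0 * T + 2 * E) * g := by
      gcongr
      have : 2 * K * (T - T1) ≤ 2 * K0 * T := by
        gcongr
        linarith
      linarith
    have f5 : 0 ≤ 2 * K * R1 := by positivity
    nlinarith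

/-! ### One polynomial -/

/-- the values of the polynomial -/
def FF (a b c : ℤ) (t : ℕ) : ℝ := a * (t : ℝ) ^ 2 + b * t + c

theorem FF_eq (a b c : ℤ) (t : ℕ) :
    ((a * (t : ℤ) ^ 2 + b * t + c : ℤ) : ℝ) = FF a b c t := by
  unfold FF
  push_cast
  ring

section one

variable {a b c : ℤ} {T : ℕ} (ha : 4 * |a| * T ≤ b) (hb : 4 * |c| ≤ b) (hb1 : 1 ≤ b)

include ha hb hb1

theorem FF_ge' {t : ℕ} (ht : 1 ≤ t) (htT : t ≤ T) : (b : ℝ) * t / 2 ≤ FF a b c t := by
  have h1 : (1 : ℝ) ≤ t := by exact_mod_cast ht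
  have h1' : (t : ℝ) ≤ T := by exact_mod_cast htT
  have h2 : (4 : ℝ) * |(a : ℝ)| * T ≤ b := by exact_mod_cast ha
  have h3 : (4 : ℝ) * |(c : ℝ)| ≤ b := by exact_mod_cast hb
  have h4 : (1 : ℝ) ≤ b := by exact_mod_cast hb1
  have h5 := neg_abs_le (c : ℝ)
  have h6 := neg_abs_le (a : ℝ)
  have h7 : -(|(a : ℝ)| * (t : ℝ) ^ 2) ≤ a * (t : ℝ) ^ 2 := by nlinarith [sq_nonneg (t : ℝ)]
  have h8 : |(a : ℝ)| * (t : ℝ) ^ 2 ≤ b * t / 4 := by
    have : |(a : ℝ)| * (t : ℝ) ≤ b / 4 := by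
      have := mul_le_mul_of_nonneg_left h1' (abs_nonneg (a : ℝ))
      linarith
    nlinarith
  have h9 : |(c : ℝ)| ≤ b * t / 4 := by nlinarith
  unfold FF
  linarith

theorem FF_le' {t : ℕ} (ht : 1 ≤ t) (htT : t ≤ T) : FF a b c t ≤ 2 * (b * t) := by
  have h1 : (1 : ℝ) ≤ t := by exact_mod_cast ht
  have h1' : (t : ℝ) ≤ T := by exact_mod_cast htT
  have h2 : (4 : ℝ) * |(a : ℝ)| * T ≤ b := by exact_mod_cast ha
  have h3 : (4 : ℝ) * |(c : ℝ)| ≤ b := by exact_mod_cast hb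
  have h4 : (1 : ℝ) ≤ b := by exact_mod_cast hb1
  have h5 := le_abs_self (c : ℝ)
  have h6 := le_abs_self (a : ℝ)
  have h7 : a * (t : ℝ) ^ 2 ≤ |(a : ℝ)| * (t : ℝ) ^ 2 := by nlinarith [sq_nonneg (t : ℝ)]
  have h8 : |(a : ℝ)| * (t : ℝ) ^ 2 ≤ b * t / 4 := by
    have : |(a : ℝ)| * (t : ℝ) ≤ b / 4 := by
      have := mul_le_mul_of_nonneg_left h1' (abs_nonneg (a : ℝ))
      linarith
    nlinarith
  have h9 : |(c : ℝ)| ≤ b * t / 4 := by nlinarith
  have h10 : (0 : ℝ) ≤ b * t := by positivity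
  unfold FF
  linarith

theorem FF_ge {t : ℕ} (ht : 1 ≤ t) (htT : t ≤ T) : (b : ℝ) / 2 ≤ FF a b c t := by
  have h1 : (1 : ℝ) ≤ t := by exact_mod_cast ht
  have h4 : (1 : ℝ) ≤ b := by exact_mod_cast hb1
  have h := FF_ge' ha hb hb1 ht htT
  nlinarith

theorem FF_pos {t : ℕ} (ht : 1 ≤ t) (htT : t ≤ T) : 0 < FF a b c t := by
  have h1 := FF_ge ha hb hb1 ht htT
  have h4 : (1 : ℝ) ≤ b := by exact_mod_cast hb1
  linarith

omit hb in
theorem FF_mono {t : ℕ} (htu : t ≤ T) : FF a b c t ≤ FF a b c T := by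
  have h1 : (t : ℝ) ≤ T := by exact_mod_cast htu
  have h2 : (4 : ℝ) * |(a : ℝ)| * T ≤ b := by exact_mod_cast ha
  have h4 : (1 : ℝ) ≤ b := by exact_mod_cast hb1
  have h6 := neg_abs_le (a : ℝ)
  have h0 : (0 : ℝ) ≤ t := Nat.cast_nonneg t
  have e : FF a b c T - FF a b c t = ((T : ℝ) - t) * (a * (T + t) + b) := by
    unfold FF
    ring
  have e2 : 0 ≤ (a : ℝ) * (T + t) + b := by
    have : -(|(a : ℝ)| * (T + t)) ≤ a * (T + t) := by nlinarith
    have h7 : |(a : ℝ)| * (T + t) ≤ |(a : ℝ)| * (2 * T) :=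
      mul_le_mul_of_nonneg_left (by linarith) (abs_nonneg _)
    linarith
  have e3 := mul_nonneg (sub_nonneg.2 h1) e2
  linarith

theorem FF_le {t J : ℕ} (ht : 1 ≤ t) (htT : t ≤ T) (hJ : 1 ≤ J) (hT : T ≤ t * J) :
    FF a b c T ≤ 4 * (J : ℝ) ^ 2 * FF a b c t := by
  have h0 : (T : ℝ) ≤ t * J := by exact_mod_cast hT
  have h1 : (1 : ℝ) ≤ t := by exact_mod_cast ht
  have hJ' : (1 : ℝ) ≤ J := by exact_mod_cast hJ
  have h4 : (1 : ℝ) ≤ b := by exact_mod_cast hb1
  have h5 := FF_ge' ha hb hb1 ht htT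
  have h6 := FF_le' ha hb hb1 (ht.trans htT) le_rfl
  have hJ2 : (J : ℝ) ≤ (J : ℝ) ^ 2 := by nlinarith
  have hp := FF_pos ha hb hb1 ht htT
  calc FF a b c T ≤ 2 * (b * T) := h6
    _ ≤ 2 * (b * (t * J)) := by gcongr
    _ = 4 * J * (b * t / 2) := by ring
    _ ≤ 4 * J * FF a b c t := by gcongr
    _ ≤ 4 * (J : ℝ) ^ 2 * FF a b c t := by gcongr

open Classical in
/-- the indicator function of the primes -/
theorem lp_eq (t : ℕ) : lp (a * (t : ℤ) ^ 2 + b * t + c) =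
    (if (a * (t : ℤ) ^ 2 + b * t + c).toNat.Prime then (1 : ℝ) else 0) *
      Real.log (FF a b c t) := by
  unfold Pool.Agent.N728.QL.lp
  rw [FF_eq]
  split_ifs <;> simp

/-- the estimate for one polynomial -/
theorem pt {J T1 : ℕ} (hJ : 1 ≤ J) (hTJ : T1 = T / J) {lam K K0 e E : ℝ} (hlam : 0 < lam)
    (hl : lam / 2 ≤ Real.log ((b : ℝ) / 2)) (hcJ : 4 * Real.log (4 * (J : ℝ) ^ 2) ≤ lam)
    (hT : 1 ≤ T) (hK : 0 ≤ K) (hK0 : K ≤ K0) (hE : 0 ≤ E)
    (h1 : |∑ t ∈ Icc 1 T1, lp (a * (t : ℤ) ^ 2 + b * t + c) - 2 * K * T1| ≤ E)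
    (h2 : |∑ t ∈ Icc 1 T, lp (a * (t : ℤ) ^ 2 + b * t + c) - 2 * K * T| ≤ E)
    (he : E ≤ e * T / 24) (he1 : e ≤ 1) (he0 : 0 < e) (hJK : 16 * K0 ≤ e * J)
    (hgl : 32 * (2 * K0 + 1) * Real.log (4 * (J : ℝ) ^ 2) ≤ e * lam) :
    |(count a b c T : ℝ) - 2 * K * ∑ t ∈ Icc 1 T,
      1 / Real.log ((a * (t : ℤ) ^ 2 + b * t + c : ℤ) : ℝ)| ≤ e * T / lam := by
  classical
  have hJ' : (1 : ℝ) ≤ J := by exact_mod_cast hJ
  set cJ : ℝ := Real.log (4 * (J : ℝ) ^ 2) with hcJd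
  have hcJ0 : 0 ≤ cJ := Real.log_nonneg (by nlinarith)
  set L : ℝ := Real.log (FF a b c T) with hL
  have hbpos : (0 : ℝ) < (b : ℝ) / 2 := by
    have h4 : (1 : ℝ) ≤ b := by exact_mod_cast hb1
    linarith
  have hlow : ∀ t : ℕ, 1 ≤ t → t ≤ T → lam / 2 ≤ Real.log (FF a b c t) := fun t ht htT =>
    hl.trans (Real.log_le_log hbpos (FF_ge ha hb hb1 ht htT))
  have hLlow : lam / 2 ≤ L := hlow T hT le_rfl
  have hLpos : 0 < L := by linarith
  have hup : ∀ t : ℕ, 1 ≤ t → t ≤ T → Real.log (FF a b c t) ≤ L := fun t ht htT =>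
    Real.log_le_log (FF_pos ha hb hb1 ht htT) (FF_mono ha hb1 htT)
  have hmid : ∀ t : ℕ, T1 < t → t ≤ T → L - cJ ≤ Real.log (FF a b c t) := by
    intro t ht htT
    have ht1 : 1 ≤ t := by omega
    rw [hTJ] at ht
    have h3 : T ≤ t * J := ((Nat.div_lt_iff_lt_mul (by omega)).1 ht).le
    have h4 := FF_le ha hb hb1 ht1 htT hJ h3
    have h5 := Real.log_le_log (FF_pos ha hb hb1 hT le_rfl) h4
    rw [Real.log_mul (by positivity) (FF_pos ha hb hb1 ht1 htT).ne'] at h5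
    linarith
  have hLc : L / 2 ≤ L - cJ := by linarith
  have hLc0 : 0 < L - cJ := by linarith
  set P : ℕ → ℝ := fun t => if (a * (t : ℤ) ^ 2 + b * t + c).toNat.Prime then (1 : ℝ) else 0
    with hP
  have hP0 : ∀ t, 0 ≤ P t := by
    intro t
    rw [hP]
    simp only
    split_ifs <;> norm_num
  have hlp : ∀ t : ℕ, lp (a * (t : ℤ) ^ 2 + b * t + c) = P t * Real.log (FF a b c t) := fun t =>
    lp_eq ha hb hb1 t
  have hT1T : T1 ≤ T := by
    rw [hTJ]
    exact Nat.div_le_self T J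
  have hsplit : ∀ f : ℕ → ℝ, ∑ t ∈ Icc 1 T, f t = ∑ t ∈ Icc 1 T1, f t +
      ∑ t ∈ Ioc T1 T, f t := by
    intro f
    rw [← Finset.sum_union]
    · congr 1
      ext t
      simp only [mem_union, mem_Icc, mem_Ioc]
      omega
    · rw [Finset.disjoint_left]
      intro t h3 h4
      rw [mem_Icc] at h3
      rw [mem_Ioc] at h4
      omega
  have hcount : (count a b c T : ℝ) = ∑ t ∈ Icc 1 T, P t := by
    unfold count
    rw [Finset.card_filter]
    push_cast
    rfl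
  have hsum : ∑ t ∈ Icc 1 T, 1 / Real.log ((a * (t : ℤ) ^ 2 + b * t + c : ℤ) : ℝ) =
      ∑ t ∈ Icc 1 T, 1 / Real.log (FF a b c t) :=
    Finset.sum_congr rfl fun t _ => by rw [FF_eq]
  rw [hcount, hsum, hsplit P, hsplit fun t => 1 / Real.log (FF a b c t)]
  rw [hsplit fun t => lp (a * (t : ℤ) ^ 2 + b * t + c)] at h2
  have hcard : ((Ioc T1 T).card : ℝ) = (T : ℝ) - T1 := by
    rw [Nat.card_Ioc, Nat.cast_sub hT1T]
  refine fin_ineq (lam := lam) (d := 1 / L) (D := 1 / (L - cJ)) (g := 8 * cJ / lam ^ 2) (K0 := K0)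
    (E := E) (T := T) (T1 := (T1 : ℕ)) (J := J)
    (S1 := ∑ t ∈ Icc 1 T1, lp (a * (t : ℤ) ^ 2 + b * t + c))
    (S2 := ∑ t ∈ Ioc T1 T, lp (a * (t : ℤ) ^ 2 + b * t + c))
    hlam (by positivity) ?_ ?_ (by positivity) hK hK0 (Nat.cast_nonneg _) (Nat.cast_nonneg _)
    (by exact_mod_cast hT1T) (by linarith) (by rw [hTJ]; exact Nat.cast_div_le) hE ?_ ?_ ?_ ?_ ?_ ?_ ?_ ?_ ?_ h1 h2 he
    he1 he0 hJK ?_
  · rw [div_le_div_iff₀ hLpos hlam]
    linarith
  · rw [div_add_div _ _ hLpos.ne' (by positivity), div_le_div_iff₀ hLc0 (by positivity)]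
    have e1 : lam ^ 2 ≤ 4 * L ^ 2 := by nlinarith
    have e2 : lam ^ 2 * cJ ≤ 8 * cJ * (L * (L - cJ)) := by
      have e3 : L ^ 2 / 2 ≤ L * (L - cJ) := by nlinarith
      nlinarith
    nlinarith
  · refine Finset.sum_nonneg fun t ht => ?_
    rw [mem_Ioc] at ht
    rw [hlp]
    have e1 := hlow t (by omega) (by omega)
    exact mul_nonneg (hP0 t) (by linarith)
  · exact Finset.sum_nonneg fun t _ => hP0 t
  · rw [Finset.sum_mul]
    refine Finset.sum_le_sum fun t ht => ?_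
    rw [mem_Icc] at ht
    rw [hlp, mul_assoc]
    have e1 := hlow t ht.1 (by omega)
    have e2 : 1 ≤ Real.log (FF a b c t) * (2 / lam) := by
      rw [mul_div_assoc', le_div_iff₀ hlam]
      linarith
    nlinarith [hP0 t]
  · refine Finset.sum_nonneg fun t ht => ?_
    rw [mem_Icc] at ht
    have e1 := hlow t ht.1 (by omega)
    have : 0 < Real.log (FF a b c t) := by linarith
    positivity
  · calc ∑ t ∈ Icc 1 T1, 1 / Real.log (FF a b c t) ≤ ∑ _t ∈ Icc 1 T1, 2 / lam := by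
          refine Finset.sum_le_sum fun t ht => ?_
          rw [mem_Icc] at ht
          have e1 := hlow t ht.1 (by omega)
          have e2 : 0 < Real.log (FF a b c t) := by linarith
          rw [div_le_div_iff₀ e2 hlam]
          linarith
      _ = (T1 : ℝ) * (2 / lam) := by
          rw [Finset.sum_const, Nat.card_Icc, nsmul_eq_mul]
          simp
  · rw [Finset.sum_mul]
    refine Finset.sum_le_sum fun t ht => ?_
    rw [mem_Ioc] at ht
    rw [hlp, mul_assoc]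
    have e1 := hup t (by omega) ht.2
    have e2 : Real.log (FF a b c t) * (1 / L) ≤ 1 := by
      rw [mul_one_div, div_le_one hLpos]
      exact e1
    nlinarith [hP0 t]
  · rw [Finset.sum_mul]
    refine Finset.sum_le_sum fun t ht => ?_
    rw [mem_Ioc] at ht
    rw [hlp, mul_assoc]
    have e1 := hmid t ht.1 ht.2
    have e2 : 1 ≤ Real.log (FF a b c t) * (1 / (L - cJ)) := by
      rw [mul_one_div, le_div_iff₀ hLc0, one_mul]
      exact e1
    nlinarith [hP0 t]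
  · rw [← hcard, ← nsmul_eq_mul, ← Finset.sum_const]
    refine Finset.sum_le_sum fun t ht => ?_
    rw [mem_Ioc] at ht
    have e1 := hup t (by omega) ht.2
    have e2 := hlow t (by omega) (by omega)
    have e3 : 0 < Real.log (FF a b c t) := by linarith
    exact one_div_le_one_div_of_le e3 e1
  · rw [← hcard, ← nsmul_eq_mul, ← Finset.sum_const]
    refine Finset.sum_le_sum fun t ht => ?_
    rw [mem_Ioc] at ht
    exact one_div_le_one_div_of_le hLc0 (hmid t ht.1 ht.2)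
  · have e1 : 8 * cJ / lam ^ 2 * lam = 8 * cJ / lam := by field_simp
    rw [e1, mul_div_assoc', div_le_iff₀ hlam]
    linarith

end one

/-! ### Dyadic intervals -/

/-- halving -/
def hh (B : ℕ) : ℕ → ℕ
  | 0 => B
  | i + 1 => (hh B i + 1) / 2

theorem hh_step (B i : ℕ) : hh B i ≤ 2 * hh B (i + 1) := by
  show hh B i ≤ 2 * ((hh B i + 1) / 2)
  omega

theorem hh_ge (B i : ℕ) : B ≤ 2 ^ i * hh B i := by
  induction i with
  | zero => simp [hh]
  | succ i ih =>
    have h1 := hh_step B i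
    calc B ≤ 2 ^ i * hh B i := ih
      _ ≤ 2 ^ i * (2 * hh B (i + 1)) := Nat.mul_le_mul_left _ h1
      _ = 2 ^ (i + 1) * hh B (i + 1) := by ring

theorem hh_le {B : ℕ} (hB : 1 ≤ B) (i : ℕ) : 1 ≤ hh B i ∧ hh B i ≤ B := by
  induction i with
  | zero => exact ⟨hB, le_rfl⟩
  | succ i ih =>
    obtain ⟨h1, h2⟩ := ih
    have h3 : hh B (i + 1) = (hh B i + 1) / 2 := rfl
    omega

theorem hh_up (B i : ℕ) : (hh B i : ℝ) ≤ B / 2 ^ i + 1 := by
  induction i with
  | zero => simp [hh]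
  | succ i ih =>
    have h1 : 2 * hh B (i + 1) ≤ hh B i + 1 := by
      show 2 * ((hh B i + 1) / 2) ≤ hh B i + 1
      omega
    have h2 : 2 * (hh B (i + 1) : ℝ) ≤ hh B i + 1 := by exact_mod_cast h1
    rw [pow_succ, ← div_div]
    linarith

theorem cover (B b I : ℕ) (hb : b ≤ B) :
    b ≤ hh B I ∨ ∃ i < I, hh B (i + 1) < b ∧ b ≤ 2 * hh B (i + 1) := by
  induction I with
  | zero => exact Or.inl hb
  | succ I ih =>
    rcases ih with h | ⟨i, hi, h⟩
    · by_cases h1 : b ≤ hh B (I + 1)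
      · exact Or.inl h1
      · exact Or.inr ⟨I, Nat.lt_succ_self I, not_le.1 h1, h.trans (hh_step B I)⟩
    · exact Or.inr ⟨i, by omega, h⟩

open Classical in
theorem markov (X : Finset ℕ) (g : ℕ → ℝ) (hg : ∀ b, 0 ≤ g b) {s M : ℝ} (hs : 0 < s)
    (h : ∑ b ∈ X, g b ≤ M * s) : ((X.filter fun b => s < g b).card : ℝ) ≤ M := by
  have h1 : ((X.filter fun b => s < g b).card : ℝ) * s ≤ ∑ b ∈ X, g b := by
    rw [← nsmul_eq_mul, ← Finset.sum_const]
    calc ∑ _b ∈ X.filter fun b => s < g b, s ≤ ∑ b ∈ X.filter fun b => s < g b, g b :=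
          Finset.sum_le_sum fun b hb => (mem_filter.1 hb).2.le
      _ ≤ ∑ b ∈ X, g b :=
          Finset.sum_le_sum_of_subset_of_nonneg (filter_subset _ _) fun b _ _ => hg b
  exact le_of_mul_le_mul_right (h1.trans h) hs

/-- powers of logarithms are small -/
theorem ev_pow (M : ℝ) (n : ℕ) : ∀ᶠ B : ℕ in Filter.atTop, M * Real.log B ^ n ≤ B := by
  have h1 : (fun x : ℝ => Real.log x ^ n) =o[Filter.atTop] (id : ℝ → ℝ) :=
    Real.isLittleO_pow_log_id_atTop
  have hc : 0 < 1 / (|M| + 1) := by positivity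
  have h2 := (h1.comp_tendsto tendsto_natCast_atTop_atTop).def hc
  filter_upwards [h2, Filter.eventually_ge_atTop 1] with B hB hB1
  simp only [Function.comp_apply, id_eq, Real.norm_eq_abs, Nat.abs_cast] at hB
  have hB' : (1 : ℝ) ≤ B := by exact_mod_cast hB1
  have h3 : 0 ≤ Real.log B ^ n := pow_nonneg (Real.log_nonneg hB') n
  rw [abs_of_nonneg h3, one_div, inv_mul_eq_div, le_div_iff₀ (by positivity)] at hB
  have h4 := le_abs_self M
  nlinarith

theorem ev_log (M : ℝ) : ∀ᶠ B : ℕ in Filter.atTop, M ≤ Real.log B :=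
  (Real.tendsto_log_atTop.comp tendsto_natCast_atTop_atTop).eventually_ge_atTop M

theorem ev_ge (M : ℝ) : ∀ᶠ B : ℕ in Filter.atTop, M ≤ (B : ℝ) :=
  (tendsto_natCast_atTop_atTop (R := ℝ)).eventually_ge_atTop M

/-! ### The theorem -/

/-- (FIN) from the mean value theorem to the final theorem -/
theorem t_FINN (a c : ℤ) (ha : a ≠ 0) (hc : c ≠ 0) (h1 : S_MC a c) (h2 : Pool.Agent.N728.QL.S_LOC)
    (h3 : S_CSTN a c) (h4 : S_MER) : FinalN a c := by
  classical
  obtain ⟨C1, hMC⟩ := h1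
  refine ⟨C1 + 1, fun ε hε => ?_⟩
  obtain ⟨e', he'⟩ : ∃ e', e' = min ε 1 := ⟨_, rfl⟩
  have he'0 : 0 < e' := by rw [he']; exact lt_min hε one_pos
  have he'1 : e' ≤ 1 := by rw [he']; exact min_le_right _ _
  have he'ε : e' ≤ ε := by rw [he']; exact min_le_left _ _
  obtain ⟨K0, κ, hK0, hκ, hCST⟩ := h3 (e' / 4) (by positivity)
  refine ⟨κ, hκ, fun δ' hδ' C2 => ?_⟩
  obtain ⟨e, he⟩ : ∃ e, e = min δ' e' := ⟨_, rfl⟩
  have he0 : 0 < e := by rw [he]; exact lt_min hδ' he'0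
  have hee : e ≤ e' := by rw [he]; exact min_le_right _ _
  have he1 : e ≤ 1 := hee.trans he'1
  have heδ : e ≤ δ' := by rw [he]; exact min_le_left _ _
  obtain ⟨J, hJ1, hJK⟩ : ∃ J : ℕ, 1 ≤ J ∧ 16 * K0 ≤ e * J := by
    obtain ⟨n, hn⟩ := exists_nat_ge (16 * K0 / e)
    refine ⟨n + 1, by omega, ?_⟩
    rw [div_le_iff₀ he0] at hn
    push_cast
    nlinarith
  obtain ⟨I, hI⟩ : ∃ I : ℕ, 8 / e ≤ (2 : ℝ) ^ I :=
    pow_unbounded_of_one_lt (8 / e) (by norm_num : (1 : ℝ) < 2) |>.imp fun n hn => hn.le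
  obtain ⟨δ, hδ⟩ : ∃ δ, δ = e / 100 := ⟨_, rfl⟩
  have hδ0 : 0 < δ := by rw [hδ]; positivity
  obtain ⟨z1, hz1⟩ := hMC (δ * (e / (8 * (I + 1)))) (by positivity)
  obtain ⟨z2, hz2⟩ := hCST δ hδ0
  obtain ⟨z, hz⟩ : ∃ z, z = max z1 z2 := ⟨_, rfl⟩
  obtain ⟨B1, hB1⟩ := hz1 z (by rw [hz]; exact le_max_left _ _) (C2 + 1)
  obtain ⟨B2, hB2⟩ := hz2 z (by rw [hz]; exact le_max_right _ _)
  obtain ⟨Cz, hCz, hloc⟩ := h2 a c z
  have hJ' : (1 : ℝ) ≤ J := by exact_mod_cast hJ1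
  -- large `B`
  have hev : ∀ᶠ B : ℕ in Filter.atTop, ∀ T : ℕ, (B : ℝ) ≤ T * Real.log B ^ C2 →
      (T : ℝ) * Real.log B ^ (C1 + 1) ≤ B →
      (((Icc 1 B).filter (fun b : ℕ => Admissible a b c ∧
        ¬ ∃ K : ℝ, IsC a b c K ∧ κ ≤ K ∧
          |(count a b c T : ℝ) - 2 * K * ∑ t ∈ Icc 1 T,
            1 / Real.log ((a * (t : ℤ) ^ 2 + b * t + c : ℤ) : ℝ)| ≤
            δ' * (T / Real.log T))).card : ℝ) ≤ ε * B := by
    filter_upwards [Filter.eventually_ge_atTop 1, Filter.eventually_ge_atTop B2,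
      Filter.eventually_ge_atTop (2 ^ I * B1),
      Filter.eventually_ge_atTop (2 ^ I * (4 * c.natAbs + 1)), ev_ge (8 / e), ev_log 1,
      ev_log (2 ^ I), ev_log (2 * (I + 1) * Real.log 2), ev_log (2 * J * 2 ^ (C2 + 1)),
      ev_log (4 * Real.log (4 * (J : ℝ) ^ 2)),
      ev_log (32 * (2 * K0 + 1) * Real.log (4 * (J : ℝ) ^ 2) / e),
      ev_pow (2 * J + 2) C2, ev_pow (Cz / δ) C2, ev_log (4 * |(a : ℝ)| * 2 ^ I)]
      with B g1 g2 g3 g4 g5 g6 g7 g8 g9 g10 g11 g12 g13 g14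
    intro T hT hT'
    obtain ⟨lam, hlam⟩ : ∃ lam, lam = Real.log (B : ℝ) := ⟨_, rfl⟩
    rw [← hlam] at g6 g7 g8 g9 g10 g11 g12 g13 g14 hT hT'
    have hlam0 : 0 < lam := by linarith
    have hBR : (1 : ℝ) ≤ B := by exact_mod_cast g1
    have hB0 : (0 : ℝ) < B := by linarith
    have hp2 : 0 < lam ^ C2 := by positivity
    have hTJ : (2 * (J : ℝ) + 2) ≤ T := le_of_mul_le_mul_right (g12.trans hT) hp2
    have hTC : Cz / δ ≤ T := le_of_mul_le_mul_right (g13.trans hT) hp2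
    have hTC' : Cz ≤ δ * T := by
      rw [div_le_iff₀ hδ0] at hTC
      linarith
    have hT0 : (0 : ℝ) < T := by linarith
    have hT1 : 1 ≤ T := by
      have : (1 : ℝ) ≤ T := by linarith
      exact_mod_cast this
    have hTB : (T : ℝ) ≤ B := by
      refine le_trans ?_ hT'
      exact le_mul_of_one_le_right hT0.le (one_le_pow₀ g6)
    obtain ⟨T1, hT1d⟩ : ∃ T1, T1 = T / J := ⟨_, rfl⟩
    have hT1T : T1 ≤ T := by rw [hT1d]; exact Nat.div_le_self _ _
    have hT1T' : (T1 : ℝ) ≤ T := by exact_mod_cast hT1T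
    have hT1J : (T : ℝ) ≤ 2 * J * T1 := by
      have e1 := Nat.div_add_mod T J
      have e2 := Nat.mod_lt T (by omega : J > 0)
      rw [← hT1d] at e1
      have e3 : (T : ℝ) < J * T1 + J := by
        have : T < J * T1 + J := by omega
        exact_mod_cast this
      linarith
    -- the exceptional sets
    obtain ⟨M, hM⟩ : ∃ M : ℕ → ℕ → Finset ℕ, M = fun (i τ : ℕ) =>
      (Ioc (hh B (i + 1)) (2 * hh B (i + 1))).filter fun b : ℕ =>
        δ * T < |∑ t ∈ Icc 1 τ, EE z (a * (t : ℤ) ^ 2 + b * t + c)| := ⟨_, rfl⟩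
    have hMcard : ∀ i < I, ∀ τ : ℕ, (T : ℝ) ≤ 2 * J * τ → τ ≤ T →
        ((M i τ).card : ℝ) ≤ e / (8 * (I + 1)) * B := by
      intro i hi τ hτ1 hτ2
      have k1 := hh_ge B (i + 1)
      have k2 := hh_le g1 (i + 1)
      have k3 : B ≤ 2 ^ I * hh B (i + 1) :=
        k1.trans (Nat.mul_le_mul_right _ (Nat.pow_le_pow_right (by norm_num) hi))
      have k4 : B1 ≤ hh B (i + 1) := by
        have := g3.trans k3
        exact Nat.le_of_mul_le_mul_left this (by positivity)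
      obtain ⟨B', hB'd⟩ : ∃ B', B' = hh B (i + 1) := ⟨_, rfl⟩
      rw [← hB'd] at k1 k2 k3 k4
      have hB'0 : (1 : ℝ) ≤ B' := by exact_mod_cast k2.1
      have hB'B : (B' : ℝ) ≤ B := by exact_mod_cast k2.2
      have k3' : (B : ℝ) ≤ 2 ^ I * B' := by exact_mod_cast k3
      have hl1 : Real.log B' ≤ lam := by
        rw [hlam]
        exact Real.log_le_log (by linarith) hB'B
      have hl0 : 0 ≤ Real.log B' := Real.log_nonneg hB'0
      have hl2 : lam / 2 ≤ Real.log B' := by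
        have e1 : lam ≤ I * Real.log 2 + Real.log B' := by
          rw [hlam, ← Real.log_pow, ← Real.log_mul (by positivity) (by linarith)]
          exact Real.log_le_log hB0 k3'
        have e2 : 0 ≤ Real.log 2 := Real.log_nonneg (by norm_num)
        linarith
      have hτT : (τ : ℝ) ≤ T := by exact_mod_cast hτ2
      have hτ0 : (0 : ℝ) ≤ τ := Nat.cast_nonneg τ
      have c1 : (B' : ℝ) ≤ τ * Real.log B' ^ (C2 + 1) := by
        calc (B' : ℝ) ≤ B := hB'B
          _ ≤ T * lam ^ C2 := hT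
          _ ≤ (2 * J * τ) * lam ^ C2 := by gcongr
          _ = τ * ((2 * J * 2 ^ (C2 + 1)) * lam ^ C2 / 2 ^ (C2 + 1)) := by
              field_simp
          _ ≤ τ * (lam * lam ^ C2 / 2 ^ (C2 + 1)) := by gcongr
          _ = τ * (lam / 2) ^ (C2 + 1) := by
              rw [div_pow, pow_succ' lam]
          _ ≤ τ * Real.log B' ^ (C2 + 1) := by gcongr
      have c2 : (τ : ℝ) * Real.log B' ^ C1 ≤ B' := by
        have e1 : (τ : ℝ) * Real.log B' ^ C1 ≤ T * lam ^ C1 := by gcongr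
        have e2 : (2 : ℝ) ^ I * (T * lam ^ C1) ≤ 2 ^ I * B' := by
          calc (2 : ℝ) ^ I * (T * lam ^ C1) ≤ lam * (T * lam ^ C1) := by gcongr
            _ = T * lam ^ (C1 + 1) := by ring
            _ ≤ B := hT'
            _ ≤ 2 ^ I * B' := k3'
        exact e1.trans (le_of_mul_le_mul_left e2 (by positivity))
      have key := hB1 B' k4 τ c1 c2
      rw [hM]
      simp only
      rw [← hB'd]
      refine markov _ (fun b : ℕ => |∑ t ∈ Icc 1 τ, EE z (a * (t : ℤ) ^ 2 + b * t + c)|)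
        (fun b => abs_nonneg _) (by positivity) ?_
      refine key.trans ?_
      have e3 : (B' : ℝ) * τ ≤ B * T := by gcongr
      calc δ * (e / (8 * (I + 1))) * (B' * τ) ≤ δ * (e / (8 * (I + 1))) * (B * T) := by gcongr
        _ = e / (8 * (I + 1)) * B * (δ * T) := by ring
    -- the inclusion
    have hsub : (Icc 1 B).filter (fun b : ℕ => Admissible a b c ∧
        ¬ ∃ K : ℝ, IsC a b c K ∧ κ ≤ K ∧
          |(count a b c T : ℝ) - 2 * K * ∑ t ∈ Icc 1 T,
            1 / Real.log ((a * (t : ℤ) ^ 2 + b * t + c : ℤ) : ℝ)| ≤ δ' * (T / Real.log T)) ⊆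
        (Icc 1 (hh B I) ∪ (Icc 1 B).filter (fun b : ℕ => Admissible a b c ∧
          ¬ ∃ K : ℝ, IsC a b c K ∧ κ ≤ K ∧ K ≤ K0 ∧ |2 * K - Sg a b c z| ≤ δ)) ∪
        (range I).biUnion fun i => M i T ∪ M i T1 := by
      intro b hb
      rw [mem_filter, mem_Icc] at hb
      obtain ⟨⟨hb1, hbB⟩, hadm, hno⟩ := hb
      by_contra hcon
      rw [mem_union, mem_union, not_or, not_or] at hcon
      obtain ⟨⟨n1, n2⟩, n3⟩ := hcon
      apply hno
      -- the constant
      have n2' : ∃ K : ℝ, IsC a b c K ∧ κ ≤ K ∧ K ≤ K0 ∧ |2 * K - Sg a b c z| ≤ δ := by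
        by_contra h
        exact n2 (mem_filter.2 ⟨mem_Icc.2 ⟨hb1, hbB⟩, hadm, h⟩)
      obtain ⟨K, hK, hKκ, hKK, hKS⟩ := n2'
      have hKn : 0 ≤ K := hκ.le.trans hKκ
      refine ⟨K, hK, hKκ, ?_⟩
      have n1' : hh B I < b := by
        by_contra h
        exact n1 (mem_Icc.2 ⟨hb1, not_lt.1 h⟩)
      rcases cover B b I hbB with h | ⟨i, hi, hi1, hi2⟩
      · omega
      have n3' : ∀ τ, τ = T ∨ τ = T1 →
          |∑ t ∈ Icc 1 τ, EE z (a * (t : ℤ) ^ 2 + b * t + c)| ≤ δ * T := by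
        intro τ hτ
        by_contra h
        push Not at h
        apply n3
        rw [mem_biUnion]
        refine ⟨i, mem_range.2 hi, ?_⟩
        rw [mem_union]
        have hmem : b ∈ M i τ := by
          rw [hM]
          exact mem_filter.2 ⟨mem_Ioc.2 ⟨hi1, hi2⟩, h⟩
        rcases hτ with rfl | rfl
        · exact Or.inl hmem
        · exact Or.inr hmem
      have hS : ∀ τ, τ = T ∨ τ = T1 →
          |∑ t ∈ Icc 1 τ, Pool.Agent.N728.QL.lp (a * (t : ℤ) ^ 2 + b * t + c) - 2 * K * τ| ≤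
            3 * δ * T := by
        intro τ hτ
        have hτT : (τ : ℝ) ≤ T := by
          rcases hτ with rfl | rfl
          · exact le_rfl
          · exact hT1T'
        have e1 := n3' τ hτ
        have e2 := hloc b 0 τ (Nat.zero_le _)
        have e3 : (Ioc 0 τ) = Icc 1 τ := by
          ext t
          simp only [mem_Ioc, mem_Icc]
          omega
        rw [e3, Nat.cast_zero, sub_zero] at e2
        have e4 : ∑ t ∈ Icc 1 τ, Pool.Agent.N728.QL.lp (a * (t : ℤ) ^ 2 + b * t + c) =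
            ∑ t ∈ Icc 1 τ, EE z (a * (t : ℤ) ^ 2 + b * t + c) +
              ∑ t ∈ Icc 1 τ, lz z (a * (t : ℤ) ^ 2 + b * t + c) := by
          rw [← Finset.sum_add_distrib]
          refine Finset.sum_congr rfl fun t _ => ?_
          unfold EE
          ring
        have e5 : |(τ : ℝ) * Sg a b c z - 2 * K * τ| ≤ δ * T := by
          have : (τ : ℝ) * Sg a b c z - 2 * K * τ = -(τ * (2 * K - Sg a b c z)) := by ring
          rw [this, abs_neg, abs_mul, abs_of_nonneg (Nat.cast_nonneg τ), mul_comm δ]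
          gcongr
        rw [e4]
        rw [abs_le] at *
        constructor <;> linarith [e1.1, e1.2, e2.1, e2.2, e5.1, e5.2]
      have hbig : 4 * c.natAbs + 1 ≤ hh B I := by
        have := g4.trans (hh_ge B I)
        exact Nat.le_of_mul_le_mul_left this (by positivity)
      have hbc : 4 * |c| ≤ (b : ℤ) := by
        have e1 : 4 * c.natAbs ≤ b := by omega
        have e2 : ((4 * c.natAbs : ℕ) : ℤ) ≤ b := by exact_mod_cast e1
        push_cast at e2
        exact e2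
      have hbR : (B : ℝ) ≤ 2 ^ I * b := by
        have e1 : B ≤ 2 ^ I * b := (hh_ge B I).trans (Nat.mul_le_mul_left _ n1'.le)
        exact_mod_cast e1
      have hb0 : (1 : ℝ) ≤ b := by exact_mod_cast hb1
      have hl : lam / 2 ≤ Real.log (((b : ℤ) : ℝ) / 2) := by
        have e0 : (((b : ℤ) : ℝ)) = b := by push_cast; rfl
        rw [e0]
        have e1 : lam ≤ (I + 1 : ℕ) * Real.log 2 + Real.log ((b : ℝ) / 2) := by
          rw [hlam, ← Real.log_pow, ← Real.log_mul (by positivity) (by positivity)]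
          refine Real.log_le_log hB0 (hbR.trans (le_of_eq ?_))
          rw [pow_succ]
          ring
        push_cast at e1
        linarith
      have hab : 4 * |a| * T ≤ (b : ℤ) := by
        have e1 : (2 : ℝ) ^ I * (4 * |(a : ℝ)| * T) ≤ 2 ^ I * b := by
          calc (2 : ℝ) ^ I * (4 * |(a : ℝ)| * T) = (4 * |(a : ℝ)| * 2 ^ I) * T := by ring
            _ ≤ lam * T := by gcongr
            _ ≤ lam ^ (C1 + 1) * T := by
                gcongr
                exact le_self_pow₀ g6 (by omega)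
            _ = T * lam ^ (C1 + 1) := mul_comm _ _
            _ ≤ B := hT'
            _ ≤ 2 ^ I * b := hbR
        have e2 := le_of_mul_le_mul_left e1 (by positivity)
        exact_mod_cast e2
      have hfin := pt hab hbc (by exact_mod_cast hb1) hJ1 hT1d hlam0 hl g10 hT1 hKn hKK
        (by positivity) (hS T1 (Or.inr rfl)) (hS T (Or.inl rfl))
        (by rw [hδ]; nlinarith) he1 he0 hJK (by
          rw [div_le_iff₀ he0] at g11
          linarith)
      refine hfin.trans ?_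
      have hlogT : Real.log T ≤ lam := by
        rw [hlam]
        exact Real.log_le_log hT0 hTB
      have hlogT0 : 0 < Real.log T := Real.log_pos (by linarith)
      calc e * T / lam ≤ δ' * T / lam := by gcongr
        _ ≤ δ' * T / Real.log T := by gcongr
        _ = δ' * (T / Real.log T) := by ring
    have hcard := Finset.card_le_card hsub
    have c1 : (((Icc 1 (hh B I) ∪ (Icc 1 B).filter (fun b : ℕ => Admissible a b c ∧
          ¬ ∃ K : ℝ, IsC a b c K ∧ κ ≤ K ∧ K ≤ K0 ∧ |2 * K - Sg a b c z| ≤ δ)) ∪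
        (range I).biUnion fun i => M i T ∪ M i T1).card : ℝ) ≤ e' * B := by
      have d1 : (((range I).biUnion fun i => M i T ∪ M i T1).card : ℝ) ≤
          ∑ i ∈ range I, (((M i T).card : ℝ) + ((M i T1).card : ℝ)) := by
        have : ((range I).biUnion fun i => M i T ∪ M i T1).card ≤
            ∑ i ∈ range I, ((M i T).card + (M i T1).card) :=
          Finset.card_biUnion_le.trans (Finset.sum_le_sum fun i _ => Finset.card_union_le _ _)
        exact_mod_cast this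
      have d2 : ∑ i ∈ range I, (((M i T).card : ℝ) + ((M i T1).card : ℝ)) ≤ e / 4 * B := by
        calc ∑ i ∈ range I, (((M i T).card : ℝ) + ((M i T1).card : ℝ))
            ≤ ∑ _i ∈ range I, (e / (8 * (I + 1)) * B + e / (8 * (I + 1)) * B) := by
              refine Finset.sum_le_sum fun i hi => ?_
              rw [mem_range] at hi
              refine add_le_add (hMcard i hi T ?_ le_rfl) (hMcard i hi T1 hT1J hT1T)
              nlinarith
          _ = (I / (I + 1)) * (e / 4 * B) := by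
              rw [Finset.sum_const, card_range, nsmul_eq_mul]
              field_simp
              ring
          _ ≤ 1 * (e / 4 * B) := by
              gcongr
              rw [div_le_one (by positivity)]
              linarith
          _ = e / 4 * B := one_mul _
      have d3 : (((Icc 1 (hh B I)).card : ℕ) : ℝ) ≤ e / 4 * B := by
        rw [Nat.card_Icc]
        have e1 := hh_up B I
        have e2 : (B : ℝ) / 2 ^ I ≤ e / 8 * B := by
          rw [div_le_iff₀ (by positivity)]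
          rw [div_le_iff₀ he0] at hI
          nlinarith
        rw [div_le_iff₀ he0] at g5
        have e3 : ((hh B I + 1 - 1 : ℕ) : ℝ) = hh B I := by simp
        rw [e3]
        linarith
      have d4 := hB2 B g2
      have d5 := Finset.card_union_le (Icc 1 (hh B I) ∪ (Icc 1 B).filter (fun b : ℕ =>
        Admissible a b c ∧ ¬ ∃ K : ℝ, IsC a b c K ∧ κ ≤ K ∧ K ≤ K0 ∧ |2 * K - Sg a b c z| ≤ δ))
        ((range I).biUnion fun i => M i T ∪ M i T1)
      have d6 := Finset.card_union_le (Icc 1 (hh B I)) ((Icc 1 B).filter (fun b : ℕ =>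
        Admissible a b c ∧ ¬ ∃ K : ℝ, IsC a b c K ∧ κ ≤ K ∧ K ≤ K0 ∧ |2 * K - Sg a b c z| ≤ δ))
      have d5' : (((Icc 1 (hh B I) ∪ (Icc 1 B).filter (fun b : ℕ => Admissible a b c ∧
          ¬ ∃ K : ℝ, IsC a b c K ∧ κ ≤ K ∧ K ≤ K0 ∧ |2 * K - Sg a b c z| ≤ δ)) ∪
        (range I).biUnion fun i => M i T ∪ M i T1).card : ℝ) ≤
        ((Icc 1 (hh B I)).card : ℝ) + (((Icc 1 B).filter (fun b : ℕ =>
        Admissible a b c ∧ ¬ ∃ K : ℝ, IsC a b c K ∧ κ ≤ K ∧ K ≤ K0 ∧
          |2 * K - Sg a b c z| ≤ δ)).card : ℝ) +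
        (((range I).biUnion fun i => M i T ∪ M i T1).card : ℝ) := by
        exact_mod_cast d5.trans (Nat.add_le_add_right d6 _)
      have d7 : 0 ≤ e' * B := by positivity
      have d8 : e / 4 * B ≤ e' / 4 * B := by gcongr
      linarith
    calc (((Icc 1 B).filter _).card : ℝ) ≤ _ := by exact_mod_cast hcard
      _ ≤ e' * B := c1
      _ ≤ ε * B := by gcongr
  obtain ⟨B0, hB0⟩ := Filter.eventually_atTop.1 hev
  exact ⟨B0, fun B hB T hT hT' => hB0 B hB T hT hT'⟩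

end

end Pool.Agent.N946.QN
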